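import Pool.Agent.Helper97.Tate.Goals

set_option autoImplicit false

noncomputable section

namespace Pool.Agent.Helper94.Tate.LEV

open Module Pool.Agent.Helper97.Tate

variable {k : Type} [Field k]

theorem isTh_pow (hM : S_MUL) {κ : ℕ} {c : k} {f : SS k} (h : IsTh κ c f) (e : ℕ) :
    IsTh (κ * e) (c ^ e) (f ^ e) := by
  induction e with
  | zero =>
    rw [Nat.mul_zero, pow_zero, pow_zero]
    exact (hM k).1
  | succ e ih =>
    rw [Nat.mul_succ, pow_succ, pow_succ]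
    exact (hM k).2 _ _ _ _ _ _ ih h

theorem isTh_prod (hM : S_MUL) {ι : Type} (s : Finset ι) (κ : ι → ℕ) (c : ι → k) (f : ι → SS k)
    (h : ∀ i ∈ s, IsTh (κ i) (c i) (f i)) : IsTh (∑ i ∈ s, κ i) (∏ i ∈ s, c i) (∏ i ∈ s, f i) := by
  classical
  induction s using Finset.induction_on with
  | empty =>
    rw [Finset.sum_empty, Finset.prod_empty, Finset.prod_empty]
    exact (hM k).1
  | insert a s ha ih =>
    rw [Finset.sum_insert ha, Finset.prod_insert ha, Finset.prod_insert ha]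
    exact (hM k).2 _ _ _ _ _ _ (h a (Finset.mem_insert_self a s))
      (ih fun i hi => h i (Finset.mem_insert_of_mem hi))

theorem isTh_sum (hL : S_LIN) {ι : Type} (s : Finset ι) (κ : ℕ) (c : k) (f : ι → SS k)
    (h : ∀ i ∈ s, IsTh κ c (f i)) : IsTh κ c (∑ i ∈ s, f i) := by
  classical
  induction s using Finset.induction_on with
  | empty =>
    rw [Finset.sum_empty]
    exact (hL k κ c).1
  | insert a s ha ih =>
    rw [Finset.sum_insert ha]
    exact (hL k κ c).2.1 _ _ (h a (Finset.mem_insert_self a s))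
      (ih fun i hi => h i (Finset.mem_insert_of_mem hi))

/-- restriction of integral forms -/
theorem isTh_form (hM : S_MUL) (hL : S_LIN) (hT : S_THC) {d : ℕ} {z : MvPolynomial (Fin 3) (OO k)}
    (hz : z.IsHomogeneous d) :
    IsTh (3 * d) (1 : k) (MvPolynomial.eval₂ iO (fun r : Fin 3 => Th 3 ((r : ℕ) : ℤ) (1 : k)) z) := by
  rw [MvPolynomial.eval₂_eq']
  apply isTh_sum hL
  intro e he
  apply (hL k (3 * d) 1).2.2.2
  have h1 := isTh_prod hM Finset.univ (fun i : Fin 3 => 3 * e i) (fun i : Fin 3 => (1 : k) ^ e i)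
    (fun i : Fin 3 => Th 3 ((i : ℕ) : ℤ) (1 : k) ^ e i) (by
      intro i _
      apply isTh_pow hM
      exact (hT k 3 ((i : ℕ) : ℤ) 1 one_ne_zero (by omega) (by have := i.2; omega)).2.1)
  have h2 : ∑ i : Fin 3, 3 * e i = 3 * d := by
    rw [← Finset.mul_sum]
    congr 1
    have h3 := hz (MvPolynomial.mem_support_iff.1 he)
    rw [Finsupp.weight_apply, Finsupp.sum_fintype] at h3
    · simpa using h3
    · intro i
      simp
  simpa [h2] using h1

/-- a common denominator -/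
theorem exists_int (z : MvPolynomial (Fin 3) (KK k)) :
    ∃ (δ : OO k) (z' : MvPolynomial (Fin 3) (OO k)), δ ≠ 0 ∧
      MvPolynomial.map (algebraMap (OO k) (KK k)) z' =
        MvPolynomial.C (algebraMap (OO k) (KK k) δ) * z := by
  classical
  obtain ⟨⟨δ, hδ⟩, h⟩ := IsLocalization.exist_integer_multiples (nonZeroDivisors (OO k)) z.support
    (fun e => z.coeff e)
  choose! a ha using h
  refine ⟨δ, ∑ e ∈ z.support, MvPolynomial.monomial e (a e), nonZeroDivisors.ne_zero hδ, ?_⟩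
  rw [map_sum]
  conv_rhs => rw [← MvPolynomial.support_sum_monomial_coeff z]
  rw [Finset.mul_sum]
  apply Finset.sum_congr rfl
  intro e he
  rw [MvPolynomial.map_monomial, ha e he, MvPolynomial.C_mul_monomial, Algebra.smul_def]

theorem hom_int {d : ℕ} {z : MvPolynomial (Fin 3) (KK k)} (hz : z.IsHomogeneous d) {δ : OO k}
    {z' : MvPolynomial (Fin 3) (OO k)}
    (h : MvPolynomial.map (algebraMap (OO k) (KK k)) z' =
        MvPolynomial.C (algebraMap (OO k) (KK k) δ) * z) : z'.IsHomogeneous d := by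
  intro e he
  apply hz
  intro h0
  apply he
  have h1 := congrArg (MvPolynomial.coeff e) h
  rw [MvPolynomial.coeff_map, MvPolynomial.coeff_C_mul, h0, mul_zero] at h1
  exact (map_eq_zero_iff _ (IsFractionRing.injective (OO k) (KK k))).1 h1

theorem evK_form (hE : S_EVC) (x : kˣ) (z : MvPolynomial (Fin 3) (OO k)) :
    evK x (MvPolynomial.eval₂ iO (fun r : Fin 3 => Th 3 ((r : ℕ) : ℤ) (1 : k)) z) =
      MvPolynomial.aeval (ph x) (MvPolynomial.map (algebraMap (OO k) (KK k)) z) := by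
  rw [MvPolynomial.hom_eval₂, MvPolynomial.aeval_def, MvPolynomial.eval₂_map]
  congr 1
  ext1 a
  exact (hE k x 0 0 0).2.2 a

/-- the existence of the coefficients -/
theorem exists_v [CharZero k] (hM : S_MUL) (hL : S_LIN) (hT : S_THC) (hB : S_BAS) (hE : S_EVC)
    (hD : S_DVM) (hR : S_VSR) (w : Fin 9 → kˣ) (hw : Function.Injective w) (d : ℕ) (n : Fin 9 → ℤ)
    (κ : ℕ) (hκ : 1 ≤ κ) (hκn : (κ : ℤ) = 3 * d - ∑ i, n i) (z : MvPolynomial (Fin 3) (KK k))
    (hz : z ∈ Sys w d (fun i => (n i).toNat)) :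
    ∃ v : Fin κ → KK k, ∀ x : kˣ, MvPolynomial.aeval (ph x) z *
        ∏ i, evK x (th (w i)) ^ (-n i).toNat =
      (∏ i, evK x (th (w i)) ^ (n i).toNat) *
        ∑ r : Fin κ, PowerSeries.C (v r) *
          evK x (Th κ ((r : ℕ) : ℤ) (∏ i, (-((w i : kˣ) : k)) ^ n i)) := by
  obtain ⟨hz1, hz2⟩ := Submodule.mem_inf.1 hz
  rw [Submodule.mem_iInf] at hz2
  rw [MvPolynomial.mem_homogeneousSubmodule] at hz1
  obtain ⟨δ, z', hδ, hz'⟩ := exists_int z
  have hz'1 := hom_int hz1 hz'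
  set F : SS k := MvPolynomial.eval₂ iO (fun r : Fin 3 => Th 3 ((r : ℕ) : ℤ) (1 : k)) z' with hF
  have hF1 : IsTh (3 * d) (1 : k) F := isTh_form hM hL hT hz'1
  have hF2 : ∀ x : kˣ, evK x F = PowerSeries.C (algebraMap (OO k) (KK k) δ) *
      MvPolynomial.aeval (ph x) z := by
    intro x
    rw [hF, evK_form hE, hz', map_mul, MvPolynomial.aeval_C]
    rfl
  have hth : ∀ i, IsTh 1 (-(((w i)⁻¹ : kˣ) : k)) (th (w i)) := by
    intro i
    exact (hT k 1 0 (-(((w i)⁻¹ : kˣ) : k)) (neg_ne_zero.2 (Units.ne_zero _)) le_rfl (by norm_num)).2.1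
  set f : SS k := F * ∏ i, th (w i) ^ (-n i).toNat with hf
  have hf1 : IsTh (κ + ∑ i, (n i).toNat) (∏ i, (-(((w i)⁻¹ : kˣ) : k)) ^ (-n i).toNat) f := by
    have h1 := (hM k).2 _ _ _ _ _ _ hF1 (isTh_prod hM Finset.univ (fun i : Fin 9 => 1 * (-n i).toNat)
      (fun i : Fin 9 => (-(((w i)⁻¹ : kˣ) : k)) ^ (-n i).toNat)
      (fun i : Fin 9 => th (w i) ^ (-n i).toNat) (fun i _ => isTh_pow hM (hth i) _))
    have h2 : 3 * d + ∑ i : Fin 9, 1 * (-n i).toNat = κ + ∑ i, (n i).toNat := by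
      have h3 : ∑ i, n i = ∑ i, (((n i).toNat : ℤ) - ((-n i).toNat : ℤ)) := by
        apply Finset.sum_congr rfl
        intro i _
        omega
      rw [Finset.sum_sub_distrib] at h3
      simp only [one_mul]
      zify
      linarith
    rw [h2, one_mul] at h1
    exact h1
  obtain ⟨N, h, hh1, hh2⟩ := hD k w hw (fun i => (n i).toNat) κ
    (∏ i, (-(((w i)⁻¹ : kˣ) : k)) ^ (-n i).toNat) f hκ
    (Finset.prod_ne_zero_iff.2 fun i _ => pow_ne_zero _ (neg_ne_zero.2 (Units.ne_zero _))) hf1 (by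
      intro i
      rw [hf, map_mul, hF2]
      exact Dvd.dvd.mul_right (Dvd.dvd.mul_left (hR k (w i) _ z (hz2 i)) _) _)
  have hc : (∏ i, (-(((w i)⁻¹ : kˣ) : k)) ^ (-n i).toNat) * ∏ i, (-(w i : k)) ^ (n i).toNat =
      ∏ i, (-((w i : kˣ) : k)) ^ n i := by
    rw [← Finset.prod_mul_distrib]
    apply Finset.prod_congr rfl
    intro i _
    have h0 : (-((w i : kˣ) : k)) ≠ 0 := neg_ne_zero.2 (Units.ne_zero _)
    have h1 : (-(((w i)⁻¹ : kˣ) : k)) = (-((w i : kˣ) : k))⁻¹ := by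
      rw [Units.val_inv_eq_inv_val, inv_neg]
    rw [h1, inv_pow, ← zpow_natCast, ← zpow_natCast, ← zpow_neg, ← zpow_add₀ h0]
    congr 1
    omega
  rw [hc] at hh1
  set c : k := ∏ i, (-((w i : kˣ) : k)) ^ n i with hcdef
  have hc0 : c ≠ 0 := Finset.prod_ne_zero_iff.2 fun i _ => zpow_ne_zero _ (neg_ne_zero.2 (Units.ne_zero _))
  have hb := (hB k κ c hκ hc0).1 h hh1
  have hX : (PowerSeries.X : SS k) = iO PowerSeries.X := by
    rw [iO, PowerSeries.map_X]
  have hs0 : algebraMap (OO k) (KK k) (PowerSeries.X ^ N * δ) ≠ 0 := by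
    rw [Ne, map_eq_zero_iff _ (IsFractionRing.injective (OO k) (KK k))]
    exact mul_ne_zero (pow_ne_zero _ PowerSeries.X_ne_zero) hδ
  refine ⟨fun r => (algebraMap (OO k) (KK k) (PowerSeries.X ^ N * δ))⁻¹ *
    algebraMap (OO k) (KK k) (ser h ((r : ℕ) : ℤ)), fun x => ?_⟩
  have e1 := congrArg (evK x) hh2
  rw [hf, map_mul, map_mul, map_mul, hF2, map_prod, map_prod] at e1
  have e2 : evK x ((PowerSeries.X : SS k) ^ N) =
      PowerSeries.C (algebraMap (OO k) (KK k) (PowerSeries.X ^ N)) := by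
    rw [hX, ← map_pow, (hE k x 0 0 0).2.2]
  have e3 : evK x h = ∑ r : Fin κ, PowerSeries.C (algebraMap (OO k) (KK k) (ser h ((r : ℕ) : ℤ))) *
      evK x (Th κ ((r : ℕ) : ℤ) c) := by
    conv_lhs => rw [hb]
    rw [map_sum]
    apply Finset.sum_congr rfl
    intro r _
    rw [map_mul, (hE k x 0 0 0).2.2]
  rw [e2, e3] at e1
  simp only [map_pow] at e1 ⊢
  have e4 : ∀ r : Fin κ, PowerSeries.C ((algebraMap (OO k) (KK k) (PowerSeries.X ^ N * δ))⁻¹ *
      algebraMap (OO k) (KK k) (ser h ((r : ℕ) : ℤ))) * evK x (Th κ ((r : ℕ) : ℤ) c) =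
      PowerSeries.C (algebraMap (OO k) (KK k) (PowerSeries.X ^ N * δ))⁻¹ *
      (PowerSeries.C (algebraMap (OO k) (KK k) (ser h ((r : ℕ) : ℤ))) *
        evK x (Th κ ((r : ℕ) : ℤ) c)) := by
    intro r
    rw [map_mul, mul_assoc]
  have e5 : PowerSeries.C (algebraMap (OO k) (KK k) (PowerSeries.X ^ N * δ)) *
      (MvPolynomial.aeval (ph x) z * ∏ i, evK x (th (w i)) ^ (-n i).toNat) =
      (∏ i, evK x (th (w i)) ^ (n i).toNat) *
        ∑ r : Fin κ, PowerSeries.C (algebraMap (OO k) (KK k) (ser h ((r : ℕ) : ℤ))) *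
          evK x (Th κ ((r : ℕ) : ℤ) c) := by
    rw [← e1]
    simp only [map_mul, map_pow]
    ring
  have e6 : PowerSeries.C (algebraMap (OO k) (KK k) (PowerSeries.X ^ N * δ))⁻¹ *
      PowerSeries.C (algebraMap (OO k) (KK k) (PowerSeries.X ^ N * δ)) = 1 := by
    rw [← map_mul, inv_mul_cancel₀ hs0, map_one]
  rw [Finset.sum_congr rfl fun r _ => e4 r, ← Finset.mul_sum]
  calc _ = (PowerSeries.C (algebraMap (OO k) (KK k) (PowerSeries.X ^ N * δ))⁻¹ *
      PowerSeries.C (algebraMap (OO k) (KK k) (PowerSeries.X ^ N * δ))) *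
      (MvPolynomial.aeval (ph x) z * ∏ i, evK x (th (w i)) ^ (-n i).toNat) := by rw [e6, one_mul]
    _ = PowerSeries.C (algebraMap (OO k) (KK k) (PowerSeries.X ^ N * δ))⁻¹ *
      (PowerSeries.C (algebraMap (OO k) (KK k) (PowerSeries.X ^ N * δ)) *
      (MvPolynomial.aeval (ph x) z * ∏ i, evK x (th (w i)) ^ (-n i).toNat)) := by rw [mul_assoc]
    _ = _ := by
      rw [e5]
      ring

/-- uniqueness of the coefficients, at a parameter different from the nine parameters -/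
theorem uniq_v (hZ : S_THZ) (hU : S_EVU) (w : Fin 9 → kˣ) (x : kˣ) (hx : ∀ i, x ≠ w i)
    (e : Fin 9 → ℕ) (κ : ℕ) (hκ : 1 ≤ κ) (c : k) (hc : c ≠ 0) (v : Fin κ → KK k)
    (h : (∏ i, evK x (th (w i)) ^ e i) *
        ∑ r : Fin κ, PowerSeries.C (v r) * evK x (Th κ ((r : ℕ) : ℤ) c) = 0) : v = 0 := by
  apply hU k x κ c hκ hc v
  refine (mul_eq_zero.1 h).resolve_left ?_
  rw [Finset.prod_eq_zero_iff]
  rintro ⟨i, -, hi⟩
  have h2 : evK x (th (w i)) = 0 := by
    by_cases he : e i = 0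
    · rw [he, pow_zero] at hi
      exact absurd hi one_ne_zero
    · exact pow_eq_zero_iff he |>.1 hi
  apply (hZ k (w i) x).2.2.1 (hx i)
  rw [h2, map_zero]

theorem t (hM : S_MUL) (hL : S_LIN) (hT : S_THC) (hB : S_BAS) (hE : S_EVC)
    (hU : S_EVU) (hZ : S_THZ) (hD : S_DVM) (hN : S_KRN) (hR : S_VSR) : S_LEV := by
  classical
  intro k _ _ α β γ hcub w hw d n κ hκ hκn
  choose! v hv using fun z hz => exists_v hM hL hT hB hE hD hR w hw d n κ hκ hκn z hz
  obtain ⟨x0, hx0⟩ : ∃ x : kˣ, ∀ i, x ≠ w i := by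
    obtain ⟨x, hx⟩ := Infinite.exists_notMem_finset (insert (0 : k) (Finset.univ.image fun i => (w i : k)))
    have hx0 : x ≠ 0 := fun h => hx (by rw [h]; exact Finset.mem_insert_self _ _)
    refine ⟨Units.mk0 x hx0, fun i hi => hx (Finset.mem_insert_of_mem
      (Finset.mem_image.2 ⟨i, Finset.mem_univ i, ?_⟩))⟩
    rw [← hi]
    rfl
  set c : k := ∏ i, (-((w i : kˣ) : k)) ^ n i with hcdef
  have hc0 : c ≠ 0 := Finset.prod_ne_zero_iff.2 fun i _ => zpow_ne_zero _ (neg_ne_zero.2 (Units.ne_zero _))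
  have huniq : ∀ v1 v2 : Fin κ → KK k, (∏ i, evK x0 (th (w i)) ^ (n i).toNat) *
        ∑ r : Fin κ, PowerSeries.C (v1 r) * evK x0 (Th κ ((r : ℕ) : ℤ) c) =
      (∏ i, evK x0 (th (w i)) ^ (n i).toNat) *
        ∑ r : Fin κ, PowerSeries.C (v2 r) * evK x0 (Th κ ((r : ℕ) : ℤ) c) → v1 = v2 := by
    intro v1 v2 h
    rw [← sub_eq_zero]
    apply uniq_v hZ hU w x0 hx0 (fun i => (n i).toNat) κ hκ c hc0
    have h1 : ∀ r : Fin κ, PowerSeries.C ((v1 - v2) r) * evK x0 (Th κ ((r : ℕ) : ℤ) c) =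
        PowerSeries.C (v1 r) * evK x0 (Th κ ((r : ℕ) : ℤ) c) -
          PowerSeries.C (v2 r) * evK x0 (Th κ ((r : ℕ) : ℤ) c) := by
      intro r
      rw [Pi.sub_apply, map_sub, sub_mul]
    rw [Finset.sum_congr rfl fun r _ => h1 r, Finset.sum_sub_distrib, mul_sub, h, sub_self]
  let a : Sys w d (fun i => (n i).toNat) →ₗ[KK k] (Fin κ → KK k) :=
    { toFun := fun z => v z
      map_add' := by
        intro z z'
        apply huniq
        rw [← hv _ (z + z').2 x0, Submodule.coe_add, map_add, add_mul, hv _ z.2 x0, hv _ z'.2 x0,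
          ← mul_add, ← Finset.sum_add_distrib]
        congr 1
        apply Finset.sum_congr rfl
        intro r _
        rw [Pi.add_apply, map_add, add_mul]
      map_smul' := by
        intro s z
        apply huniq
        have h1 : MvPolynomial.aeval (ph x0) (s • (z : MvPolynomial (Fin 3) (KK k))) =
            PowerSeries.C s * MvPolynomial.aeval (ph x0) (z : MvPolynomial (Fin 3) (KK k)) := by
          rw [map_smul, Algebra.smul_def]
          rfl
        rw [← hv _ (s • z).2 x0, Submodule.coe_smul, h1, mul_assoc, hv _ z.2 x0, mul_left_comm,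
          Finset.mul_sum]
        congr 1
        apply Finset.sum_congr rfl
        intro r _
        rw [RingHom.id_apply, Pi.smul_apply, smul_eq_mul, map_mul, mul_assoc] }
  have ha : ∀ z, a z = v z := fun z => rfl
  refine ⟨a, ?_, ?_⟩
  · intro z hz
    have hz1 : ((z : MvPolynomial (Fin 3) (KK k))).IsHomogeneous d :=
      (MvPolynomial.mem_homogeneousSubmodule _ _).1 (Submodule.mem_inf.1 z.2).1
    apply hN k α β γ hcub x0 d _ hz1
    have h1 := hv _ z.2 x0
    rw [ha] at hz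
    rw [hz] at h1
    have h2 : ∑ r : Fin κ, PowerSeries.C ((0 : Fin κ → KK k) r) * evK x0 (Th κ ((r : ℕ) : ℤ) c) = 0 := by
      apply Finset.sum_eq_zero
      intro r _
      rw [Pi.zero_apply, map_zero, zero_mul]
    rw [h2, mul_zero] at h1
    refine (mul_eq_zero.1 h1).resolve_right ?_
    rw [Finset.prod_eq_zero_iff]
    rintro ⟨i, -, hi⟩
    have h3 : evK x0 (th (w i)) = 0 := by
      by_cases he : (-n i).toNat = 0
      · rw [he, pow_zero] at hi
        exact absurd hi one_ne_zero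
      · exact (pow_eq_zero_iff he).1 hi
    apply (hZ k (w i) x0).2.2.1 (hx0 i)
    rw [h3, map_zero]
  · intro x z
    exact hv _ z.2 x

end Pool.Agent.Helper94.Tate.LEV
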