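import Pool.Agent.Helper97.Tate.Goals

set_option autoImplicit false

noncomputable section

namespace Pool.Agent.Helper94.Tate.MIA

open Module Pool.Agent.Helper97.Tate

variable {K : Type} [Field K]

theorem mem_WW {P : ℕ → Fin 3 → K} {m : ℕ → ℕ} {S : Finset ℕ} {d j : ℕ} {z : MvPolynomial (Fin 3) K} :
    z ∈ WW P m S d j ↔ (z ∈ Fm K ((d : ℤ) - 3 * j) ∧ ∀ i < 9, z ∈ Van (P i) (m i - j)) ∧
      ∀ i ∈ S, z ∈ Van (P i) (m i) := by
  simp only [WW, Submodule.mem_inf, Submodule.mem_iInf, Finset.mem_range]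

theorem WW_eq_bot {P : ℕ → Fin 3 → K} {m : ℕ → ℕ} {S : Finset ℕ} {d j : ℕ} (h : d < 3 * j) :
    WW P m S d j = ⊥ := by
  rw [eq_bot_iff]
  intro z hz
  have h1 : z ∈ Fm K ((d : ℤ) - 3 * j) := hz.1.1
  rw [Fm, if_neg (by omega)] at h1
  exact h1

theorem WW_mono {P : ℕ → Fin 3 → K} {m : ℕ → ℕ} {S : Finset ℕ} {d j : ℕ} :
    WW P m S d j ≤ WW P m ∅ d j := by
  intro z hz
  refine ⟨hz.1, ?_⟩
  simp

theorem WW_deg {P : ℕ → Fin 3 → K} {m : ℕ → ℕ} {S : Finset ℕ} {d j : ℕ} {z : MvPolynomial (Fin 3) K}
    (hz : z ∈ WW P m S d j) : z.totalDegree ≤ d := by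
  rcases Nat.lt_or_ge d (3 * j) with h | h
  · rw [WW_eq_bot h, Submodule.mem_bot] at hz
    rw [hz]
    simp
  · have h1 : z ∈ Fm K ((d : ℤ) - 3 * j) := hz.1.1
    rw [Fm, if_pos (by omega), MvPolynomial.mem_homogeneousSubmodule] at h1
    refine h1.totalDegree_le.trans ?_
    omega

/-- a level hypothesis without restriction on the level -/
theorem lev_all {g : MvPolynomial (Fin 3) K} {P : ℕ → Fin 3 → K} {m : ℕ → ℕ} {d κ b : ℕ}
    {h : Fin b → Fin 3 → PowerSeries K} {Θ B : Fin b → PowerSeries K}
    {S : Fin b → ℕ → Fin κ → PowerSeries K} (H : LevHyp g P m d κ h Θ B S) (j : ℕ) :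
    ∃ a : WW P m ∅ d j →ₗ[K] (Fin κ → K),
    (∀ z, a z = 0 → g ∣ (z : MvPolynomial (Fin 3) K)) ∧
    ∀ (z : WW P m ∅ d j) (i : Fin b),
      Θ i ^ j * MvPolynomial.aeval (h i) (z : MvPolynomial (Fin 3) K) =
        B i * ∑ r : Fin κ, PowerSeries.C (a z r) * S i j r := by
  rcases Nat.lt_or_ge d (3 * j) with h1 | h1
  · have h2 : ∀ z : WW P m ∅ d j, (z : MvPolynomial (Fin 3) K) = 0 := by
      intro z
      exact (Submodule.mem_bot K).1 ((WW_eq_bot h1).le z.2)
    refine ⟨0, fun z _ => ?_, fun z i => ?_⟩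
    · rw [h2 z]
      exact dvd_zero g
    · rw [h2 z]
      simp
  · exact H j h1

/-- the functional: coefficient of `s^α t^β` after multiplication by a series -/
def cfn (u : PowerSeries K) (M : ℕ) (α β : ℕ) : Polynomial (PowerSeries K) →ₗ[K] K where
  toFun p := if α + β < M then PowerSeries.coeff α (u * p.coeff β) else 0
  map_add' p p' := by
    split_ifs
    · rw [Polynomial.coeff_add, mul_add, map_add]
    · rw [add_zero]
  map_smul' c p := by
    split_ifs
    · rw [Polynomial.coeff_smul, mul_smul_comm, map_smul]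
      rfl
    · simp

theorem cfn_apply (u : PowerSeries K) (M : ℕ) (α β : ℕ) (p : Polynomial (PowerSeries K)) :
    cfn u M α β p = if α + β < M then PowerSeries.coeff α (u * p.coeff β) else 0 := rfl

/-- the conditions of one level -/
def bet {κ b : ℕ} (M j0 : ℕ) (Y : Fin b → K) (S : Fin b → ℕ → Fin κ → PowerSeries K) (j : ℕ) :
    (Fin κ → K) →ₗ[K] (Fin b → Fin M → Fin M → K) where
  toFun a := fun l α β => if (α : ℕ) + β < M then
    Y l ^ j * ((j.choose β : ℕ) : K) * ∑ r : Fin κ, a r * PowerSeries.coeff α (S l (j0 + j) r) else 0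
  map_add' a a' := by
    funext l α β
    simp only [Pi.add_apply]
    split_ifs
    · rw [← mul_add, ← Finset.sum_add_distrib]
      congr 1
      exact Finset.sum_congr rfl fun r _ => add_mul _ _ _
    · rw [add_zero]
  map_smul' c a := by
    funext l α β
    simp only [Pi.smul_apply, smul_eq_mul, RingHom.id_apply]
    split_ifs
    · simp only [Finset.mul_sum]
      apply Finset.sum_congr rfl
      intro r _
      ring
    · rw [mul_zero]

theorem sub_const_mem (f : PowerSeries K) :
    (Polynomial.C (f - PowerSeries.C (PowerSeries.constantCoeff f)) : Polynomial (PowerSeries K)) ∈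
      (Ideal.span {Polynomial.C PowerSeries.X, Polynomial.X} : Ideal (Polynomial (PowerSeries K))) := by
  obtain ⟨y, hy⟩ : PowerSeries.X ∣ f - PowerSeries.C (PowerSeries.constantCoeff f) := by
    rw [PowerSeries.X_dvd_iff]
    simp
  rw [hy, map_mul]
  exact Ideal.mul_mem_right _ _ (Ideal.subset_span (by simp))

theorem tst_mem (f : Fin 3 → PowerSeries K) (v : PowerSeries K) (ε : K) (r : Fin 3) :
    tst f v ε (MvPolynomial.X r) - algebraMap K (Polynomial (PowerSeries K)) (nP f v ε r) ∈
      (Ideal.span {Polynomial.C PowerSeries.X, Polynomial.X} : Ideal (Polynomial (PowerSeries K))) := by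
  have hC : ∀ c : K, algebraMap K (Polynomial (PowerSeries K)) c = Polynomial.C (PowerSeries.C c) :=
    fun c => rfl
  rw [tst, MvPolynomial.aeval_X, hC]
  fin_cases r
  · have h1 : (Polynomial.C (f 0) + Polynomial.C (PowerSeries.C ε * v) * (1 + Polynomial.X) -
        Polynomial.C (PowerSeries.C (PowerSeries.constantCoeff (f 0) +
          ε * PowerSeries.constantCoeff v)) : Polynomial (PowerSeries K)) =
        Polynomial.C (f 0 - PowerSeries.C (PowerSeries.constantCoeff (f 0))) +
          Polynomial.C (PowerSeries.C ε) * Polynomial.C (v - PowerSeries.C (PowerSeries.constantCoeff v)) +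
          Polynomial.C (PowerSeries.C ε * v) * Polynomial.X := by
      simp only [map_add, map_mul, map_sub]
      ring
    have h2 : (Polynomial.C (f 0 - PowerSeries.C (PowerSeries.constantCoeff (f 0))) +
          Polynomial.C (PowerSeries.C ε) * Polynomial.C (v - PowerSeries.C (PowerSeries.constantCoeff v)) +
          Polynomial.C (PowerSeries.C ε * v) * Polynomial.X : Polynomial (PowerSeries K)) ∈
        (Ideal.span {Polynomial.C PowerSeries.X, Polynomial.X} : Ideal (Polynomial (PowerSeries K))) := by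
      refine Ideal.add_mem _ (Ideal.add_mem _ (sub_const_mem _)
        (Ideal.mul_mem_left _ _ (sub_const_mem _))) (Ideal.mul_mem_left _ _ (Ideal.subset_span (by simp)))
    rw [← h1] at h2
    exact h2
  · have h2 := sub_const_mem (f 1)
    rw [map_sub] at h2
    exact h2
  · have h2 := sub_const_mem (f 2)
    rw [map_sub] at h2
    exact h2

theorem t (hG : S_GRK) (hE : S_EXP) (hJ : S_JJI) (hD : S_DRP) (hV : S_VAB) : S_MIA := by
  intro K _ g P m d κ b M lam k0 j0 h v Θ B Y S T t hg3 h9 hT haev hder hΘ hB hLev ht htinj hker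
  obtain ⟨hmul, hdiv, hfd⟩ := hD K g P m T d hg3 h9 hT
  have hg0 : g ≠ 0 := by
    intro h0
    apply (h9 0 (by norm_num)).2
    rw [h0]
    exact Submodule.zero_mem _
  choose aL haL1 haL2 using fun j => lev_all hLev j
  choose Ls hLs1 hLs2 hLs3 using fun l => hE K g (h l) (v l) (Θ l) (Y l) (haev l) (hder l)
  -- the filtration
  let μ : ℕ → MvPolynomial (Fin 3) K →ₗ[K] MvPolynomial (Fin 3) K := fun j => LinearMap.mulLeft K (g ^ j)
  have hμ : ∀ j z, μ j z = g ^ j * z := fun j z => rfl
  have hinj : ∀ j, Function.Injective (μ j) := by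
    intro j z z' hz
    rw [hμ, hμ] at hz
    exact mul_left_cancel₀ (pow_ne_zero j hg0) hz
  let F : ℕ → Submodule K (MvPolynomial (Fin 3) K) := fun j => (WW P m T d (j0 + j)).map (μ j)
  let e : ∀ j, WW P m T d (j0 + j) ≃ₗ[K] F j := fun j =>
    Submodule.equivMapOfInjective (μ j) (hinj j) (WW P m T d (j0 + j))
  have he : ∀ j (z : WW P m T d (j0 + j)), ((e j z : F j) : MvPolynomial (Fin 3) K) = g ^ j * z :=
    fun j z => rfl
  have he' : ∀ j (z : F j), (z : MvPolynomial (Fin 3) K) =
      g ^ j * ((e j).symm z : MvPolynomial (Fin 3) K) := by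
    intro j z
    rw [← he, LinearEquiv.apply_symm_apply]
  have hFd : FiniteDimensional K (F 0) := by
    have := hfd (j0 + 0)
    exact Module.Finite.equiv (e 0)
  have hFle : ∀ j, F (j + 1) ≤ F j := by
    intro j z hz
    obtain ⟨z', hz', rfl⟩ := hz
    refine ⟨g ^ 1 * z', hmul (j0 + j) 1 z' hz', ?_⟩
    rw [hμ, hμ]
    ring
  let a : ∀ j, F j →ₗ[K] (Fin κ → K) := fun j =>
    (aL (j0 + j)) ∘ₗ (Submodule.inclusion WW_mono) ∘ₗ (e j).symm.toLinearMap
  have ha : ∀ j (z : F j), a j z = aL (j0 + j) (Submodule.inclusion WW_mono ((e j).symm z)) :=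
    fun j z => rfl
  -- the units
  have hu : ∀ l, ∃ u : PowerSeries K, u * B l = Θ l ^ j0 := by
    intro l
    refine ⟨Θ l ^ j0 * (B l)⁻¹, ?_⟩
    rw [mul_assoc, PowerSeries.inv_mul_cancel _ (hB l), mul_one]
  choose u hu using hu
  let L : ℕ → MvPolynomial (Fin 3) K →ₗ[K] (Fin b → Fin M → Fin M → K) := fun i =>
    LinearMap.pi fun l => LinearMap.pi fun α => LinearMap.pi fun β =>
      (cfn (u l) M α β) ∘ₗ (Ls l i)
  have hL : ∀ i z l α β, L i z l α β = cfn (u l) M α β (Ls l i z) := fun i z l α β => rfl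
  have hn : 0 < d + lam + 1 := by omega
  obtain ⟨E, hE'⟩ := hG K (MvPolynomial (Fin 3) K) (Fin b → Fin M → Fin M → K) (Fin κ → K) F lam
    (d + lam + 1) L a (bet M j0 Y S) hFle hn (by omega)
    (by
      intro i j hij z hz
      obtain ⟨z', hz', rfl⟩ := hz
      funext l α β
      rw [hL, hμ, hLs2 l i j z' hij, map_zero]
      rfl)
    (by
      intro j hj z
      funext l α β
      rw [hL, he' j z, hLs3 l j, cfn_apply, ha]
      have h1 := haL2 (j0 + j) (Submodule.inclusion WW_mono ((e j).symm z)) l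
      rw [Submodule.coe_inclusion] at h1
      set A := aL (j0 + j) (Submodule.inclusion WW_mono ((e j).symm z)) with hA
      change _ = if (α : ℕ) + β < M then
        Y l ^ j * ((j.choose β : ℕ) : K) * ∑ r : Fin κ, A r * PowerSeries.coeff α (S l (j0 + j) r) else 0
      split_ifs with hαβ
      · have h2 : ((1 + Polynomial.X : Polynomial (PowerSeries K)) ^ j).coeff β =
            ((j.choose β : ℕ) : PowerSeries K) := Polynomial.coeff_one_add_X_pow _ _ _
        rw [Polynomial.coeff_C_mul, h2]
        have h3 : u l * (PowerSeries.C (Y l ^ j) * Θ l ^ j *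
            MvPolynomial.aeval (h l) (((e j).symm z : WW P m T d (j0 + j)) :
              MvPolynomial (Fin 3) K) * ((j.choose β : ℕ) : PowerSeries K)) =
            PowerSeries.C (Y l ^ j * ((j.choose β : ℕ) : K)) *
              ∑ r : Fin κ, PowerSeries.C (A r) * S l (j0 + j) r := by
          have h4 : IsUnit (B l) := by
            rw [PowerSeries.isUnit_iff_constantCoeff]
            exact (hB l).isUnit
          apply h4.mul_left_cancel
          have h5 : PowerSeries.C (Y l ^ j * ((j.choose β : ℕ) : K)) =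
              PowerSeries.C (Y l ^ j) * ((j.choose β : ℕ) : PowerSeries K) := by
            rw [map_mul, map_natCast]
          rw [h5]
          calc _ = (PowerSeries.C (Y l ^ j) * ((j.choose β : ℕ) : PowerSeries K)) *
                ((u l * B l) * Θ l ^ j * MvPolynomial.aeval (h l)
                  (((e j).symm z : WW P m T d (j0 + j)) : MvPolynomial (Fin 3) K)) := by ring
            _ = (PowerSeries.C (Y l ^ j) * ((j.choose β : ℕ) : PowerSeries K)) *
                (Θ l ^ (j0 + j) * MvPolynomial.aeval (h l)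
                  (((e j).symm z : WW P m T d (j0 + j)) : MvPolynomial (Fin 3) K)) := by
                rw [hu l, pow_add]
            _ = _ := by
                rw [h1]
                ring
        rw [h3, PowerSeries.coeff_C_mul, map_sum]
        congr 1
        exact Finset.sum_congr rfl fun r _ => PowerSeries.coeff_C_mul _ _ _
      · rfl)
    (by
      intro j hj z hz
      rw [ha] at hz
      obtain ⟨z', hz'⟩ := haL1 _ _ hz
      rw [Submodule.coe_inclusion] at hz'
      refine ⟨z', ?_, ?_⟩
      · have h1 : g * z' ∈ WW P m T d (j0 + j) := by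
          rw [← hz']
          exact ((e j).symm z).2
        exact hdiv (j0 + j) z' h1
      · rw [hμ, he' j z, hz']
        ring)
  refine ⟨E, fun ε hε => ?_⟩
  have h1 := hE' ε hε
  have h2 : finrank K (F lam) = finrank K (WW P m T d (j0 + lam)) := (e lam).symm.finrank_eq
  have h3 : finrank K (LinearMap.ker (∑ j : Fin lam, (bet M j0 Y S j) ∘ₗ (LinearMap.proj j :
      (Fin lam → Fin κ → K) →ₗ[K] (Fin κ → K)))) ≤ k0 := by
    refine le_trans (Submodule.finrank_mono ?_) hker
    intro x hx l α β hαβ
    rw [LinearMap.mem_ker, LinearMap.sum_apply] at hx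
    have h4 := congrFun (congrFun (congrFun hx l) ⟨α, by omega⟩) ⟨β, by omega⟩
    rw [Finset.sum_apply, Finset.sum_apply, Finset.sum_apply] at h4
    refine Eq.trans ?_ h4
    apply Finset.sum_congr rfl
    intro j _
    change _ = if α + β < M then
      Y l ^ (j : ℕ) * (((j : ℕ).choose β : ℕ) : K) *
        ∑ r : Fin κ, x j r * PowerSeries.coeff α (S l (j0 + j) r) else 0
    rw [if_pos hαβ]
  have h4 : WW (Function.extend t (fun l => nP (h l) (v l) ε) P) m (T ∪ Finset.univ.image t) d j0 ≤
      F 0 ⊓ LinearMap.ker (∑ i ∈ Finset.range (d + lam + 1), ε ^ i • L i) := by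
    intro z hz
    have hP : ∀ i, (∀ l, t l ≠ i) →
        Function.extend t (fun l => nP (h l) (v l) ε) P i = P i := by
      intro i hi
      exact Function.extend_apply' _ _ _ (by rintro ⟨l, hl⟩; exact hi l hl)
    have hPt : ∀ l, Function.extend t (fun l => nP (h l) (v l) ε) P (t l) = nP (h l) (v l) ε :=
      fun l => htinj.extend_apply _ _ _
    have hz' := mem_WW.1 hz
    refine Submodule.mem_inf.2 ⟨?_, ?_⟩
    · refine ⟨z, mem_WW.2 ⟨⟨hz'.1.1, ?_⟩, ?_⟩, by rw [hμ, pow_zero, one_mul]⟩
      · intro i hi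
        have h6 := hz'.1.2 i hi
        rw [hP i (fun l hl => by
          have := (ht l).1
          omega)] at h6
        exact h6
      · intro i hi
        have h6 := hz'.2 i (Finset.mem_union_left _ hi)
        rw [hP i (fun l hl => (ht l).2.1 (by rw [hl]; exact hi))] at h6
        exact h6
    · rw [LinearMap.mem_ker]
      funext l α β
      have h5 : z ∈ Van (nP (h l) (v l) ε) M := by
        have h7 := hz'.2 (t l) (Finset.mem_union_right _ (Finset.mem_image_of_mem _ (Finset.mem_univ l)))
        rw [hPt, (ht l).2.2] at h7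
        exact h7
      have h6 : tst (h l) (v l) ε z ∈
          (Ideal.span {Polynomial.C PowerSeries.X, Polynomial.X} : Ideal (Polynomial (PowerSeries K))) ^ M := by
        apply (hV K (nP (h l) (v l) ε)).2.2.2 _ (tst (h l) (v l) ε) _ M z _ h5
        exact tst_mem (h l) (v l) ε
      have h7 : (∑ i ∈ Finset.range (d + lam + 1), ε ^ i • L i) z l α β =
          cfn (u l) M α β (tst (h l) (v l) ε z) := by
        rw [hLs1 l (d + lam + 1) z ε (by have := WW_deg hz; omega), map_sum, LinearMap.sum_apply,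
          Finset.sum_apply, Finset.sum_apply, Finset.sum_apply]
        apply Finset.sum_congr rfl
        intro i _
        rw [map_smul]
        rfl
      rw [h7, cfn_apply]
      split_ifs with hαβ
      · have h8 := hJ K M (Polynomial.C (u l) * tst (h l) (v l) ε z) (Ideal.mul_mem_left _ _ h6) α β hαβ
        rw [Polynomial.coeff_C_mul] at h8
        rw [h8]
        rfl
      · rfl
  have hfin : FiniteDimensional K (F 0 ⊓ LinearMap.ker (∑ i ∈ Finset.range (d + lam + 1), ε ^ i • L i) :
      Submodule K (MvPolynomial (Fin 3) K)) := Submodule.finiteDimensional_inf_left _ _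
  calc _ ≤ finrank K (F 0 ⊓ LinearMap.ker (∑ i ∈ Finset.range (d + lam + 1), ε ^ i • L i) :
      Submodule K (MvPolynomial (Fin 3) K)) := Submodule.finrank_mono h4
    _ ≤ _ := h1
    _ ≤ _ := by
      rw [h2]
      exact Nat.add_le_add_left h3 _

end Pool.Agent.Helper94.Tate.MIA
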