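import Pool.Agent.Helper94.Tate.MIA

set_option autoImplicit false

noncomputable section

namespace Pool.Agent.Helper94.Tate.DRP

open Module Pool.Agent.Helper97.Tate Pool.Agent.Helper94.Tate.MIA MvPolynomial

variable {K : Type} [Field K]

theorem hc_mul {g : MvPolynomial (Fin 3) K} {a : ℕ} (hg : g.IsHomogeneous a) (z : MvPolynomial (Fin 3) K)
    (n : ℕ) : homogeneousComponent (a + n) (g * z) = g * homogeneousComponent n z := by
  have h1 : g * z = ∑ i ∈ Finset.range (z.totalDegree + 1), g * homogeneousComponent i z := by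
    rw [← Finset.mul_sum, sum_homogeneousComponent]
  rw [h1, map_sum]
  have h2 : ∀ i, homogeneousComponent (a + n) (g * homogeneousComponent i z) =
      if n = i then g * homogeneousComponent i z else 0 := by
    intro i
    have h3 : g * homogeneousComponent i z ∈ homogeneousSubmodule (Fin 3) K (a + i) :=
      hg.mul (homogeneousComponent_isHomogeneous i z)
    rw [homogeneousComponent_of_mem h3]
    by_cases h : n = i
    · rw [if_pos h, if_pos (by omega)]
    · rw [if_neg h, if_neg (by omega)]
  rw [Finset.sum_congr rfl fun i _ => h2 i, Finset.sum_ite_eq]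
  split_ifs with h
  · rfl
  · rw [Finset.mem_range, not_lt] at h
    rw [homogeneousComponent_eq_zero n z (by omega), mul_zero]

theorem hom_of_mul {g z : MvPolynomial (Fin 3) K} {a n : ℕ} (hg : g.IsHomogeneous a) (hg0 : g ≠ 0)
    (h : (g * z).IsHomogeneous (a + n)) : z.IsHomogeneous n := by
  have h1 : ∀ i, i ≠ n → homogeneousComponent i z = 0 := by
    intro i hi
    have h2 := hc_mul hg z i
    rw [homogeneousComponent_of_mem (show g * z ∈ homogeneousSubmodule (Fin 3) K (a + n) from h),
      if_neg (by omega)] at h2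
    exact (mul_eq_zero.1 h2.symm).resolve_left hg0
  have h2 : z = homogeneousComponent n z := by
    conv_lhs => rw [← sum_homogeneousComponent z]
    by_cases h3 : n ∈ Finset.range (z.totalDegree + 1)
    · exact Finset.sum_eq_single_of_mem n h3 fun i _ hi => h1 i hi
    · rw [Finset.sum_eq_zero fun i hi => h1 i (by rintro rfl; exact h3 hi)]
      rw [Finset.mem_range, not_lt] at h3
      rw [homogeneousComponent_eq_zero n z (by omega)]
  rw [h2]
  exact homogeneousComponent_isHomogeneous n z

/-- a homogeneous nonzero product has degree at least that of the factor -/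
theorem deg_of_mul {g z : MvPolynomial (Fin 3) K} {a n : ℕ} (hg : g.IsHomogeneous a)
    (hz : g * z ≠ 0) (h : (g * z).IsHomogeneous n) : a ≤ n := by
  by_contra hlt
  have h1 : ∀ i, homogeneousComponent (a + i) (g * z) = 0 := by
    intro i
    rw [homogeneousComponent_of_mem (show g * z ∈ homogeneousSubmodule (Fin 3) K n from h),
      if_neg (by omega)]
  have hg0 : g ≠ 0 := left_ne_zero_of_mul hz
  apply right_ne_zero_of_mul hz
  rw [← sum_homogeneousComponent z]
  apply Finset.sum_eq_zero
  intro i _
  have h2 := hc_mul hg z i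
  rw [h1] at h2
  exact (mul_eq_zero.1 h2.symm).resolve_left hg0

theorem mem_Fm {d j : ℕ} {z : MvPolynomial (Fin 3) K} :
    z ∈ Fm K ((d : ℤ) - 3 * j) ↔ z = 0 ∨ (3 * j ≤ d ∧ z.IsHomogeneous (d - 3 * j)) := by
  rcases Nat.lt_or_ge d (3 * j) with h | h
  · rw [Fm, if_neg (by omega), Submodule.mem_bot]
    constructor
    · exact Or.inl
    · rintro (h1 | h1)
      · exact h1
      · omega
  · have e : ((d : ℤ) - 3 * j).toNat = d - 3 * j := by omega
    rw [Fm, if_pos (by omega), mem_homogeneousSubmodule, e]
    constructor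
    · exact fun h1 => Or.inr ⟨h, h1⟩
    · rintro (h1 | h1)
      · rw [h1]
        exact isHomogeneous_zero _ _ _
      · exact h1.2

theorem t (hA : S_VAA) : S_DRP := by
  intro K _ g P m T d hg3 h9 hT
  have hg0 : g ≠ 0 := by
    intro h0
    apply (h9 0 (by norm_num)).2
    rw [h0]
    exact Submodule.zero_mem _
  have hpow : ∀ (Q : Fin 3 → K) (i : ℕ), g ∈ Van Q 1 → g ^ i ∈ Van Q i := by
    intro Q i hQ
    induction i with
    | zero =>
      rw [pow_zero]
      exact (hA K Q).2.2.2 1
    | succ i ih =>
      rw [pow_succ]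
      exact (hA K Q).1 i 1 _ _ ih hQ
  refine ⟨?_, ?_, ?_⟩
  · intro j i z hz
    obtain ⟨⟨h1, h2⟩, h3⟩ := mem_WW.1 hz
    refine mem_WW.2 ⟨⟨?_, ?_⟩, ?_⟩
    · rcases mem_Fm.1 h1 with h4 | ⟨h4, h5⟩
      · rw [h4, mul_zero]
        exact Submodule.zero_mem _
      · rw [mem_Fm]
        right
        refine ⟨by omega, ?_⟩
        have h6 := (hg3.pow i).mul h5
        have e : 3 * i + (d - 3 * (j + i)) = d - 3 * j := by omega
        rw [e] at h6
        exact h6
    · intro l hl
      have h4 := (hA K (P l)).1 i (m l - (j + i)) _ _ (hpow (P l) i (h9 l hl).1) (h2 l hl)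
      exact (hA K (P l)).2.2.1 _ _ (by omega) h4
    · intro l hl
      have h4 := (hA K (P l)).1 0 (m l) _ _ ((hA K (P l)).2.2.2 (g ^ i)) (h3 l hl)
      rw [Nat.zero_add] at h4
      exact h4
  · intro j z hz
    obtain ⟨⟨h1, h2⟩, h3⟩ := mem_WW.1 hz
    refine mem_WW.2 ⟨⟨?_, ?_⟩, ?_⟩
    · by_cases hz0 : z = 0
      · rw [hz0]
        exact Submodule.zero_mem _
      · rcases mem_Fm.1 h1 with h4 | ⟨h4, h5⟩
        · exact absurd (mul_eq_zero.1 h4) (by tauto)
        · have h6 := deg_of_mul hg3 (mul_ne_zero hg0 hz0) h5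
          rw [mem_Fm]
          right
          refine ⟨by omega, hom_of_mul hg3 hg0 ?_⟩
          have e : 3 + (d - 3 * (j + 1)) = d - 3 * j := by omega
          rw [e]
          exact h5
    · intro l hl
      rcases Nat.eq_zero_or_pos (m l - j) with h4 | h4
      · have e : m l - (j + 1) = 0 := by omega
        rw [e]
        exact (hA K (P l)).2.2.2 z
      · apply (hA K (P l)).2.1 1 (m l - (j + 1)) g z (h9 l hl).1 (h9 l hl).2
        have e : 1 + (m l - (j + 1)) = m l - j := by omega
        rw [e]
        exact h2 l hl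
    · intro l hl
      apply (hA K (P l)).2.1 0 (m l) g z ((hA K (P l)).2.2.2 g)
      · rw [Nat.zero_add]
        exact hT l hl
      · rw [Nat.zero_add]
        exact h3 l hl
  · intro j
    have h1 : WW P m T d j ≤ restrictTotalDegree (Fin 3) K d := by
      intro z hz
      rw [mem_restrictTotalDegree]
      exact WW_deg hz
    exact Submodule.finiteDimensional_of_le h1

end Pool.Agent.Helper94.Tate.DRP
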