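import Pool.Agent.Helper94.Tate.MIA

set_option autoImplicit false

noncomputable section

namespace Pool.Agent.Helper94.Tate.BSE

open Module Pool.Agent.Helper97.Tate Pool.Agent.Helper94.Tate.MIA

theorem t (hD : S_DRP) (hV : S_VAB) : S_BSE := by
  intro K _ g P m d κ h Θ B S hg3 h9 hm hLev j
  obtain ⟨hmul, hdiv, hfd⟩ := hD K g P m ∅ d hg3 h9 (by simp)
  have hz : ∀ j, min (d / 3) ((d - m 0) / 2) + 1 ≤ j → WW P m ∅ d j = ⊥ := by
    intro j hj
    rcases Nat.lt_or_ge d (3 * j) with h1 | h1
    · exact WW_eq_bot h1
    · rw [eq_bot_iff]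
      intro z hz
      have hz' := mem_WW.1 hz
      have h2 : z.IsHomogeneous (d - 3 * j) := by
        have h3 := hz'.1.1
        rw [Fm, if_pos (by omega), MvPolynomial.mem_homogeneousSubmodule] at h3
        have h4 : ((d : ℤ) - 3 * j).toNat = d - 3 * j := by omega
        rw [h4] at h3
        exact h3
      have h3 := hz'.1.2 0 (by norm_num)
      rw [Submodule.mem_bot]
      refine (hV K (P 0)).1 _ _ z h2 h3 ?_
      have h4 : d / 3 < j ∨ (d - m 0) / 2 < j := by omega
      rcases h4 with h4 | h4
      · omega
      · omega
  have key : ∀ t j, min (d / 3) ((d - m 0) / 2) + 1 ≤ j + t →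
      finrank K (WW P m ∅ d j) ≤ κ * t := by
    intro t
    induction t with
    | zero =>
      intro j hj
      rw [hz j hj, finrank_bot]
      exact Nat.zero_le _
    | succ t ih =>
      intro j hj
      obtain ⟨a, ha1, -⟩ := lev_all hLev j
      have h1 := ih (j + 1) (by omega)
      have hfd1 := hfd j
      have hfd2 := hfd (j + 1)
      have h2 := LinearMap.finrank_range_add_finrank_ker a
      have h3 : finrank K (LinearMap.range a) ≤ κ := by
        have := Submodule.finrank_le (LinearMap.range a)
        rwa [Module.finrank_fin_fun] at this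
      have h4 : finrank K (LinearMap.ker a) ≤ finrank K (WW P m ∅ d (j + 1)) := by
        let ψ : WW P m ∅ d (j + 1) →ₗ[K] WW P m ∅ d j :=
          LinearMap.codRestrict _ ((LinearMap.mulLeft K g) ∘ₗ (WW P m ∅ d (j + 1)).subtype) (by
            intro z
            have := hmul j 1 (z : MvPolynomial (Fin 3) K) z.2
            rw [pow_one] at this
            exact this)
        have h5 : LinearMap.ker a ≤ LinearMap.range ψ := by
          intro z hz
          obtain ⟨z', hz'⟩ := ha1 z (LinearMap.mem_ker.1 hz)
          have h6 : z' ∈ WW P m ∅ d (j + 1) := by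
            apply hdiv
            rw [← hz']
            exact z.2
          refine ⟨⟨z', h6⟩, ?_⟩
          apply Subtype.ext
          exact hz'.symm
        calc _ ≤ finrank K (LinearMap.range ψ) := Submodule.finrank_mono h5
          _ ≤ _ := LinearMap.finrank_range_le ψ
      calc _ ≤ κ + κ * t := by omega
        _ = κ * (t + 1) := by ring
  exact key _ j (by omega)

end Pool.Agent.Helper94.Tate.BSE
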