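import Pool.Agent.Helper94.Tate.MIA

set_option autoImplicit false

noncomputable section

namespace Pool.Agent.Helper94.Tate.MIB

open Module Pool.Agent.Helper97.Tate Pool.Agent.Helper94.Tate.MIA

variable {K : Type} [Field K]

theorem const_tst (f : Fin 3 → PowerSeries K) (v : PowerSeries K) (ε : K) (z : MvPolynomial (Fin 3) K) :
    PowerSeries.constantCoeff ((tst f v ε z).coeff 0) = MvPolynomial.eval (nP f v ε) z := by
  induction z using MvPolynomial.induction_on with
  | C a =>
    have h : tst f v ε (MvPolynomial.C a) = Polynomial.C (PowerSeries.C a) := by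
      rw [← MvPolynomial.algebraMap_eq, AlgHom.commutes]
      rfl
    rw [h, Polynomial.coeff_C_zero, MvPolynomial.eval_C]
    simp
  | add p q hp hq =>
    rw [map_add, Polynomial.coeff_add, map_add, hp, hq, map_add]
  | mul_X p i hp =>
    rw [map_mul, Polynomial.mul_coeff_zero, map_mul, hp, map_mul, MvPolynomial.eval_X]
    congr 1
    rw [tst, MvPolynomial.aeval_X]
    fin_cases i
    · have e : ((Polynomial.C (f 0) + Polynomial.C (PowerSeries.C ε * v) * (1 + Polynomial.X) :
          Polynomial (PowerSeries K))).coeff 0 = f 0 + PowerSeries.C ε * v := by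
        simp
      change PowerSeries.constantCoeff ((Polynomial.C (f 0) + Polynomial.C (PowerSeries.C ε * v) *
        (1 + Polynomial.X) : Polynomial (PowerSeries K)).coeff 0) = _
      rw [e, map_add, map_mul]
      simp [nP]
    · change PowerSeries.constantCoeff ((Polynomial.C (f 1) : Polynomial (PowerSeries K)).coeff 0) = _
      rw [Polynomial.coeff_C_zero]
      rfl
    · change PowerSeries.constantCoeff ((Polynomial.C (f 2) : Polynomial (PowerSeries K)).coeff 0) = _
      rw [Polynomial.coeff_C_zero]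
      rfl

/-- the new point lies off the cubic for almost all `ε` -/
theorem off (hE : S_EXP) (g : MvPolynomial (Fin 3) K) (f : Fin 3 → PowerSeries K)
    (v Θ : PowerSeries K) (Y : K) (h1 : MvPolynomial.aeval f g = 0)
    (h2 : MvPolynomial.aeval f (MvPolynomial.pderiv 0 g) * v = PowerSeries.C Y * Θ) (hY : Y ≠ 0)
    (hΘ : PowerSeries.constantCoeff Θ ≠ 0) :
    ∃ E : Finset K, ∀ ε ∉ E, MvPolynomial.eval (nP f v ε) g ≠ 0 := by
  classical
  obtain ⟨L, hL1, hL2, hL3⟩ := hE K g f v Θ Y h1 h2
  let c : ℕ → K := fun i => PowerSeries.constantCoeff ((L i g).coeff 0)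
  let p : Polynomial K := ∑ i ∈ Finset.range (g.totalDegree + 2), Polynomial.C (c i) * Polynomial.X ^ i
  have hc1 : c 1 ≠ 0 := by
    have h3 := hL3 1 1
    rw [pow_one, mul_one] at h3
    change PowerSeries.constantCoeff ((L 1 g).coeff 0) ≠ 0
    rw [h3]
    simp [hY, hΘ]
  have hp : p ≠ 0 := by
    intro h0
    have h3 : p.coeff 1 = c 1 := by
      change (∑ i ∈ Finset.range (g.totalDegree + 2), Polynomial.C (c i) * Polynomial.X ^ i).coeff 1 = c 1
      rw [Polynomial.finsetSum_coeff]
      simp only [Polynomial.coeff_C_mul, Polynomial.coeff_X_pow, mul_ite, mul_one, mul_zero]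
      rw [Finset.sum_ite_eq, if_pos (by rw [Finset.mem_range]; omega)]
    rw [h0, Polynomial.coeff_zero] at h3
    exact hc1 h3.symm
  refine ⟨p.roots.toFinset, fun ε hε h0 => ?_⟩
  apply hε
  rw [Multiset.mem_toFinset, Polynomial.mem_roots hp, Polynomial.IsRoot.def]
  rw [← h0, ← const_tst, hL1 (g.totalDegree + 2) g ε (by omega)]
  change (∑ i ∈ Finset.range (g.totalDegree + 2), Polynomial.C (c i) * Polynomial.X ^ i).eval ε = _
  rw [Polynomial.eval_finsetSum, Polynomial.finsetSum_coeff, map_sum]
  apply Finset.sum_congr rfl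
  intro i _
  rw [Polynomial.coeff_smul, Polynomial.eval_mul, Polynomial.eval_C, Polynomial.eval_pow,
    Polynomial.eval_X]
  have h4 : ∀ (a : K) (x : PowerSeries K), PowerSeries.constantCoeff (a • x) =
      a * PowerSeries.constantCoeff x := by
    intro a x
    rw [← PowerSeries.coeff_zero_eq_constantCoeff_apply, map_smul, smul_eq_mul,
      PowerSeries.coeff_zero_eq_constantCoeff_apply]
  rw [h4, mul_comm]

theorem t (hM : S_MIA) (hE : S_EXP) (hV : S_VAB) : S_MIB := by
  classical
  intro K _ _ g P m d κ b M lam k0 h v Θ B Y S T t hg3 h9 hT haev hder hY hΘ hB hLev ht htinj hker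
  choose E hE1 using fun j0 => hM K g P m d κ b M lam k0 j0 h v Θ B Y S T t hg3 h9
    (fun i hi => (hT i hi).2) haev hder hΘ hB hLev ht htinj (hker j0)
  choose E' hE2 using fun l => off hE g (h l) (v l) (Θ l) (Y l) (haev l) (hder l) (hY l) (hΘ l)
  obtain ⟨ε, hε⟩ := Infinite.exists_notMem_finset
    ((Finset.range (d + 1)).biUnion E ∪ Finset.univ.biUnion E')
  rw [Finset.mem_union, not_or, Finset.mem_biUnion, Finset.mem_biUnion] at hε
  push Not at hε
  refine ⟨Function.extend t (fun l => nP (h l) (v l) ε) P, ?_, ?_, ?_⟩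
  · intro i hi
    exact Function.extend_apply' _ _ _ (by rintro ⟨l, hl⟩; exact hi l hl.symm)
  · intro l
    rw [htinj.extend_apply, (hV K _).2.1]
    exact hE2 l ε (hε.2 l (Finset.mem_univ l))
  · intro j0
    by_cases hj : j0 ∈ Finset.range (d + 1)
    · exact hE1 j0 ε (hε.1 j0 hj)
    · rw [Finset.mem_range, not_lt] at hj
      rw [WW_eq_bot (by omega), finrank_bot]
      exact Nat.zero_le _

end Pool.Agent.Helper94.Tate.MIB
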